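import Pool.Agent.H21.TN.ND.Var
import Pool.Agent.H21.TN.CO.Last

/-!
# Nef line bundles whose Iitaka dimension is the numerical dimension minus one

`Var` and `Num` are the structures of the file `Pool/Agent/H21/TN/ND/Var`, `Last` is the one of
`Pool/Agent/H21/TN/CO/Last`.
-/

namespace Pool.Agent.H21.TN.OP

open Pool.Agent.H21.TN.ND Pool.Agent.H21.TN.CO

open scoped BigOperators

/-- linear forms -/
def Form {r : ℕ} (f : Vec r → ℝ) : Prop :=
  (∀ x y, f (x + y) = f x + f y) ∧ ∀ (t : ℝ) x, f (t • x) = t * f x

/-- the class of `∑ u_j F_j`, the sum over `j` in `T` -/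
def sm {r a : ℕ} {Pr : Type} (Y : Num r Pr) (F : Fin a → Pr) (T : Finset (Fin a)) (u : Fin a → ℝ) : Vec r :=
  ∑ j ∈ T, u j • Y.cl (F j)

/-! ## The Iitaka fibration -/

/-- A very general fibre `F` of the Iitaka fibration `f : X' → B`, see `Iit`, a projective manifold of
dimension `n ≥ 2`; `d` is the degree of `B`, `i1` and `i2` are the numbers `L . M^b . A'^(n-1)` and
`L^2 . M^b . A'^(n-2)` on `X'`. The line bundle `M = f^* H` is trivial on `F`, so `q L = M + N` is the
line bundle of the restriction `N_F = ∑ m_j F_j` of `N`, which has simple normal crossings (the `F_j` are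
the components, `m_j > 0`). The canonical divisor of `X'` is a combination of exceptional divisors with
positive coefficients, since `K_X ~ 0`; they are components of `N`; so by adjunction there is an `n`-form
on `F` with the divisor `K = ∑ k_j F_j`, `k_j ≥ 0`. -/
structure Fibre (n q : ℕ) (i1 i2 : ℝ) where
  /-- the number of components of `N_F` -/
  a : ℕ
  m : Fin a → ℕ
  k : Fin a → ℕ
  r : ℕ
  /-- the prime divisors of `F`, and the `F_j` -/
  Pr : Type
  F : Fin a → Pr
  Y : Num r Pr
  /-- irreducible curves on `F`, the degree of a class on a curve, and the curves on `F_j` -/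
  Cv : Type
  deg : Cv → Vec r → ℝ
  In : Cv → Fin a → Prop
  /-- the dimension of `H^0(F, O(i ∑ m_j F_j))`, the sum over `j` in `T` -/
  h0 : Finset (Fin a) → ℕ → ℕ
  m_pos : ∀ j, 0 < m j
  inj : Function.Injective F
  form : Y.Form
  lin : ∀ C, Form (deg C)
  /-- Kleiman: a nef class is a limit of ample classes -/
  mov : ∀ x, (∀ C, 0 ≤ deg C x) → Y.Mov x
  not_in : ∀ C j, ¬ In C j → 0 ≤ deg C (Y.cl (F j))
  /-- two different components are disjoint if and only if the intersection number is zero -/
  disj : ∀ C j j', j ≠ j' → Y.f (Y.cl (F j)) (Y.cl (F j')) = 0 → In C j → deg C (Y.cl (F j')) = 0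
  /-- `q L` is nef -/
  nef : ∀ C, 0 ≤ deg C (sm Y F Finset.univ fun j => m j)
  /-- the class of `M^b` is `d F` -/
  d : ℝ
  d_pos : 0 < d
  one : q * i1 = d * Y.f Y.A (sm Y F Finset.univ fun j => m j)
  two : (q : ℝ) ^ 2 * i2 =
    d * Y.f (sm Y F Finset.univ fun j => m j) (sm Y F Finset.univ fun j => m j)
  mono : ∀ T i, h0 T i ≤ h0 Finset.univ i
  /-- IITAKA (1971); LAZARSFELD, Positivity I, Theorem 2.1.33: the Iitaka dimension of `L` on a very
  general fibre is zero -/
  iitaka : ∀ i : ℕ, 0 < i → h0 Finset.univ i ≤ 1
  /-- Let `T` be a set of components disjoint from the other ones, `S` the sum of the `F_j` and `G` the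
  sum of the `m_j F_j`, `j` in `T`. Let `G` be nef, `G^2` numerically trivial, and `c` the minimum of the
  numbers `(k_j + 1) / m_j`, `j` in `T`. Suppose that the `F_j` with `k_j + 1 > c m_j` are components of the
  negative part of `K + S + (2 n + 1) G`: for some `t > 0` they are contained in all the effective divisors with
  the class `K + S + (2 n + 1) G + t A`.

  Then `Last` is the end of THE MINIMAL MODEL PROGRAM for `K + S + (2 n + 1) G` with scaling of an ample
  divisor (BIRKAR, CASCINI, HACON and McKERNAN 2010, Corollary 1.4.2; the program stops, or the numbers of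
  the scaling tend to zero). The bound for the length of an extremal ray of a dlt pair is `2 n` (KAWAMATA
  1991, Theorem 1; FUJINO 2011, Theorem 18.2), so all the steps are trivial on `G`, they are steps of the
  program for `K + S`, and the direct image of `G` stays nef and Cartier with numerically trivial square, and
  disjoint from the other components. The `F_j` with `k_j + 1 = c m_j` are not contracted, because
  `K + S + (2 n + 1) G` is the sum of `(c + 2 n + 1) G`, which is nef, and of an effective divisor without
  them. After finitely many steps the class is movable, so the components of the negative part are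
  contracted (NAKAYAMA 2004, chapter III; FUJINO 2011, Semi-stable minimal model program for varieties with
  trivial canonical divisor, Theorem 2.3). Let `Y'` be the model and `G'` the direct image of `G`. Then
  `K + S' = c G'` near the support `S'` of `G'`. The pull backs of `G` and `G'` to a common resolution are equal,
  so `H^0(F, O(i G)) = H^0(Y', O(i G'))`. -/
  prog : ∀ (T : Finset (Fin a)) (c : ℚ),
    (∀ j ∈ T, ∀ j', j' ∉ T → Y.f (Y.cl (F j)) (Y.cl (F j')) = 0) →
    (∀ C, 0 ≤ deg C (sm Y F T fun j => m j)) →
    Y.f (sm Y F T fun j => m j) (sm Y F T fun j => m j) = 0 →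
    (∀ j ∈ T, c * m j ≤ k j + 1) → (∃ j ∈ T, c * m j = k j + 1) →
    (∀ j ∈ T, c * m j < k j + 1 → ∃ t : ℝ, 0 < t ∧ ¬ Y.Free (F j)
      (sm Y F Finset.univ (fun j => k j) + sm Y F T (fun j => 1 + (2 * n + 1) * m j) + t • Y.A)) →
    Last (n - 2) (h0 T)

/-- The Iitaka dimension of `L` is at least `k`: for some `m > 0` the dimension of `H^0(X, i m L)` grows
at least like `i^k`. -/
def Kod {r : ℕ} (X : Var r) (L : X.P) (k : ℕ) : Prop :=
  ∃ m : ℕ, 0 < m ∧ ∃ t : ℝ, 0 < t ∧ ∀ i : ℕ, 0 < i → t * i ^ k ≤ X.h 0 (i • m • L)

/-- THE IITAKA FIBRATION of a nef line bundle `L` on the projective manifold `X`, `K_X ~ 0`, with a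
section of some positive multiple; `top i` is the degree `L^i . A^(n - i)` for an ample `A`, and zero for
`i > n`. Let `|m L|` define the Iitaka fibration, with the number `m` chosen such that its general fibres
are connected, and let `X' → X` be a composition of blow ups with smooth centres contained in the base
locus such that the pull back of `m L` is `M + N`, `M = f^* H` without base points,
`f : X' → B ⊆ ℙ^s` surjective of relative dimension `n - b`, and the support of `N` has simple normal
crossings and contains all exceptional divisors (HIRONAKA 1964, principalisation of the base ideal). -/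
structure Iit {r : ℕ} (X : Var r) (L : X.P) (top : ℕ → ℝ) where
  /-- the Iitaka dimension -/
  b : ℕ
  upper : ∃ C : ℝ, ∀ i : ℕ, 0 < i → (X.h 0 (i • L) : ℝ) ≤ C * i ^ b
  m : ℕ
  m_pos : 0 < m
  /-- the degree `L^i . M^j . A'^(n - i - j)` on `X'`, for an ample `A'`; zero if `i + j > n` -/
  I : ℕ → ℕ → ℝ
  I_nonneg : ∀ i j, 0 ≤ I i j
  /-- `L`, `M`, `A'` are nef and `m L - M = N` is effective -/
  I_le : ∀ i j, i + j + 1 ≤ X.n → I i (j + 1) ≤ m * I (i + 1) j
  I_top : ∀ i, top i = 0 → I i 0 = 0
  /-- KAWAMATA (1985, Theorem 6.1): `K_X ~ 0`, so a nef and abundant line bundle is semiample -/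
  kawamata : top (b + 1) = 0 → X.Semiample L
  /-- base point free theorem (KAWAMATA, SHOKUROV) -/
  bpf : top X.n ≠ 0 → X.Semiample L
  /-- EASY ADDITION (NAKAYAMA 2004, chapter V): `M^b` is a positive multiple of the class of the general
  fibre `F` of `f`; if the degree of `L` on `F` is zero, then `L` is numerically trivial on `F`, and the
  numerical dimension of `L` is at most `dim B = b` -/
  easy : b + 1 ≤ X.n → I 1 b = 0 → top (b + 1) = 0
  fibre : b + 2 ≤ X.n → Fibre (X.n - b) m (I 1 b) (I 2 b)

/-- The Iitaka fibrations of the nef line bundles on the projective manifold `X` of dimension `n ≥ 2`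
with `K_X ~ 0`. -/
structure Fib {r : ℕ} (X : Var r) where
  /-- the degree `x^i . A^(n - i)` for an ample `A` on `X`, zero for `i > n` -/
  top : X.P → ℕ → ℝ
  top_big : ∀ x i, X.n < i → top x i = 0
  /-- if `x` is nef and `x^i` numerically trivial then so is `x^(i+1)` -/
  top_succ : ∀ x i, X.Nef x → top x i = 0 → top x (i + 1) = 0
  top_two : ∀ x, top x 2 = X.num.f (X.rl x) (X.rl x)
  iit : ∀ x, X.Nef x → (∃ m : ℕ, 0 < m ∧ X.h 0 (m • x) ≠ 0) → Iit X x (top x)

end Pool.Agent.H21.TN.OP
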