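import Pool.Agent.H21.TN.ND.Num
import Pool.Agent.H21.TN.OP.Defs

/-! The negative part of `K + S + (2 n + 1) G` is `∑ (k_j + 1 - c m_j) F_j` near `S`. -/

namespace Pool.Agent.H21.TN.OP

open Pool.Agent.H21.TN.ND

open scoped BigOperators

section sm

variable {r a : ℕ} {Pr : Type} {Y : Num r Pr} {F : Fin a → Pr} {T : Finset (Fin a)} {u v : Fin a → ℝ}

theorem sm_add : sm Y F T (fun j => u j + v j) = sm Y F T u + sm Y F T v := by
  simp only [sm, add_smul, Finset.sum_add_distrib]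

theorem sm_smul (t : ℝ) : sm Y F T (fun j => t * u j) = t • sm Y F T u := by
  simp only [sm, mul_smul, Finset.smul_sum]

theorem sm_compl : sm Y F T u + sm Y F Tᶜ u = sm Y F Finset.univ u :=
  Finset.sum_add_sum_compl T _

theorem sm_congr (h : ∀ j ∈ T, u j = v j) : sm Y F T u = sm Y F T v :=
  Finset.sum_congr rfl fun j hj => by rw [h j hj]

theorem f_sm (h : Y.Pre) (x : Vec r) : Y.f x (sm Y F T u) = ∑ j ∈ T, u j * Y.f x (Y.cl (F j)) := by
  rw [sm, h.sum']
  exact Finset.sum_congr rfl fun j _ => h.mul' _ _ _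

theorem sm_f (h : Y.Pre) (x : Vec r) : Y.f (sm Y F T u) x = ∑ j ∈ T, u j * Y.f (Y.cl (F j)) x := by
  rw [sm, h.sum]
  exact Finset.sum_congr rfl fun j _ => h.mul _ _ _

/-- the class of a divisor supported on the `F_j` -/
theorem cls_eq_sm (hF : Function.Injective F) (N : Pr →₀ ℝ) (hN : ∀ P, (∀ j, F j ≠ P) → N P = 0) :
    Y.cls N = sm Y F Finset.univ fun j => N (F j) := by
  classical
  rw [Num.cls_eq, sm, ← Finset.sum_image (s := Finset.univ) (g := F) (f := fun P => N P • Y.cl P)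
    fun x _ y _ hxy => hF hxy]
  refine Finset.sum_subset (fun P hP => ?_) fun P _ hP => ?_
  · by_contra h
    refine Finsupp.mem_support_iff.1 hP (hN P fun j hj => h ?_)
    exact Finset.mem_image.2 ⟨j, Finset.mem_univ _, hj⟩
  · rw [Finsupp.notMem_support_iff.1 hP, zero_smul]

/-- the divisor `∑ u_j F_j` -/
noncomputable def dvr (F : Fin a → Pr) (u : Fin a → ℝ) : Pr →₀ ℝ := ∑ j, Finsupp.single (F j) (u j)

theorem dvr_apply (hF : Function.Injective F) (j : Fin a) : dvr F u (F j) = u j := by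
  classical
  rw [dvr, Finsupp.finsetSum_apply, Finset.sum_eq_single j]
  · exact Finsupp.single_eq_same
  · intro i _ hi
    exact Finsupp.single_eq_of_ne fun h => hi (hF h).symm
  · exact fun h => absurd (Finset.mem_univ j) h

theorem dvr_zero (P : Pr) (h : ∀ j, F j ≠ P) : dvr F u P = 0 := by
  classical
  rw [dvr, Finsupp.finsetSum_apply]
  exact Finset.sum_eq_zero fun j _ => Finsupp.single_eq_of_ne (h j).symm

theorem dvr_nonneg (h : ∀ j, 0 ≤ u j) : 0 ≤ dvr F u :=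
  Finset.sum_nonneg fun j _ => Finsupp.single_nonneg.2 (h j)

end sm

namespace Fibre

variable {n q : ℕ} {i1 i2 : ℝ} (F : Fibre n q i1 i2)

/-- the class of the part `G` of `N_F` with the components in `T` -/
def part (T : Finset (Fin F.a)) : Vec F.r := sm F.Y F.F T fun j => F.m j

/-- the components in `T` are disjoint from the others -/
def Iso (T : Finset (Fin F.a)) : Prop :=
  ∀ j ∈ T, ∀ j', j' ∉ T → F.Y.f (F.Y.cl (F.F j)) (F.Y.cl (F.F j')) = 0

/-- the support of the part is connected -/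
def Conn (T : Finset (Fin F.a)) : Prop :=
  ∀ U ⊆ T, U.Nonempty → (∃ j ∈ T, j ∉ U) →
    ∃ j ∈ U, ∃ j' ∈ T, j' ∉ U ∧ F.Y.f (F.Y.cl (F.F j)) (F.Y.cl (F.F j')) ≠ 0

variable {F}

theorem deg_smul (C : F.Cv) {t : ℝ} (ht : 0 ≤ t) {x : Vec F.r} (h : 0 ≤ F.deg C x) :
    0 ≤ F.deg C (t • x) := by
  rw [(F.lin C).2]
  exact mul_nonneg ht h

/-- `G . F_j = 0` -/
theorem part_cl {T : Finset (Fin F.a)} (hn : ∀ C, 0 ≤ F.deg C (F.part T))
    (h2 : F.Y.f (F.part T) (F.part T) = 0) (j : Fin F.a) (hj : j ∈ T) :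
    F.Y.f (F.part T) (F.Y.cl (F.F j)) = 0 := by
  have h3 := f_sm F.form.toPre (F := F.F) (T := T) (u := fun j => (F.m j : ℝ)) (F.part T)
  rw [show sm F.Y F.F T (fun j => (F.m j : ℝ)) = F.part T from rfl, h2] at h3
  have h4 := (Finset.sum_eq_zero_iff_of_nonneg fun j _ =>
    mul_nonneg (Nat.cast_nonneg (F.m j)) (F.form.mov_cl (F.mov _ hn) (F.F j))).1 h3.symm j hj
  rcases mul_eq_zero.1 h4 with h | h
  · exact absurd h (by exact_mod_cast (F.m_pos j).ne')
  · exact h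

theorem part_ne {T : Finset (Fin F.a)} (hT : T.Nonempty) : F.part T ≠ 0 := by
  intro h
  have h1 : F.Y.f F.Y.A (F.part T) = 0 := by rw [h, F.form.zero']
  rw [part, f_sm F.form.toPre] at h1
  have h2 : 0 < ∑ j ∈ T, (F.m j : ℝ) * F.Y.f F.Y.A (F.Y.cl (F.F j)) :=
    Finset.sum_pos (fun j _ => mul_pos (by exact_mod_cast F.m_pos j) (F.form.pos _)) hT
  exact absurd h1 h2.ne'

/-- **Theorem.** `T` is connected and disjoint from the other components, `G = ∑ m_j F_j` is nef,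
`G^2 = 0`, and `c` is the minimum of the numbers `(k_j + 1) / m_j`, `j` in `T`. Then the `F_j` with
`k_j + 1 > c m_j` are components of the negative part of `K + S + (2 n + 1) G`. -/
theorem negative (F : Fibre n q i1 i2) (T : Finset (Fin F.a)) (c : ℚ) (hT : F.Iso T) (hc : F.Conn T)
    (hn : ∀ C, 0 ≤ F.deg C (F.part T)) (h2 : F.Y.f (F.part T) (F.part T) = 0)
    (hle : ∀ j ∈ T, c * F.m j ≤ F.k j + 1) (heq : ∃ j ∈ T, c * F.m j = F.k j + 1) (j : Fin F.a)
    (hj : j ∈ T) (hlt : c * F.m j < F.k j + 1) : ∃ t : ℝ, 0 < t ∧ ¬ F.Y.Free (F.F j)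
      (sm F.Y F.F Finset.univ (fun j => (F.k j : ℝ)) +
        sm F.Y F.F T (fun j => 1 + (2 * n + 1) * (F.m j : ℝ)) + t • F.Y.A) := by
  classical
  have hform := F.form
  have hP := hform.toPre
  set x := sm F.Y F.F Finset.univ (fun j => (F.k j : ℝ)) +
    sm F.Y F.F T (fun j => 1 + (2 * n + 1) * (F.m j : ℝ)) with hx
  obtain ⟨j0, hj0, hj0'⟩ := heq
  -- the numbers `e_j`
  let e : Fin F.a → ℝ := fun j => if j ∈ T then (F.k j : ℝ) + 1 - c * F.m j else F.k j
  have he : ∀ j ∈ T, e j = (F.k j : ℝ) + 1 - c * F.m j := fun j hj => if_pos hj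
  have he' : ∀ j, j ∉ T → e j = F.k j := fun j hj => if_neg hj
  have he0 : ∀ j, 0 ≤ e j := by
    intro j
    by_cases h : j ∈ T
    · rw [he j h]
      have h1 : (c : ℝ) * F.m j ≤ F.k j + 1 := by exact_mod_cast hle j h
      linarith
    · rw [he' j h]
      exact Nat.cast_nonneg _
  have hc0 : (0 : ℝ) ≤ c := by
    have h1 : (c : ℝ) * F.m j0 = F.k j0 + 1 := by exact_mod_cast hj0'
    have h3 : (0 : ℝ) < F.m j0 := by exact_mod_cast F.m_pos j0
    by_contra h
    have h4 : (c : ℝ) * F.m j0 < 0 := mul_neg_of_neg_of_pos (not_le.1 h) h3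
    have h5 : (0 : ℝ) ≤ F.k j0 := Nat.cast_nonneg _
    linarith
  have hx1 : x = ((c : ℝ) + 2 * n + 1) • F.part T + sm F.Y F.F Finset.univ e := by
    have h1 : sm F.Y F.F T e =
        sm F.Y F.F T (fun j => (F.k j : ℝ)) + sm F.Y F.F T fun j => 1 - c * (F.m j : ℝ) := by
      rw [← sm_add]
      exact sm_congr fun j hj => by rw [he j hj]; ring
    have h3 : sm F.Y F.F Tᶜ e = sm F.Y F.F Tᶜ fun j => (F.k j : ℝ) :=
      sm_congr fun j hj => he' j (Finset.mem_compl.1 hj)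
    have h4 : sm F.Y F.F T (fun j => 1 + (2 * n + 1) * (F.m j : ℝ)) =
        ((c : ℝ) + 2 * n + 1) • F.part T + sm F.Y F.F T fun j => 1 - c * (F.m j : ℝ) := by
      rw [part, ← sm_smul, ← sm_add]
      exact sm_congr fun j _ => by ring
    rw [hx, ← sm_compl (T := T) (u := e), ← sm_compl (T := T) (u := fun j => (F.k j : ℝ)), h1, h3, h4]
    abel
  have hD : F.Y.cls (dvr F.F e) = sm F.Y F.F Finset.univ e := by
    rw [cls_eq_sm F.inj _ fun P h => dvr_zero P h]
    exact sm_congr fun j _ => dvr_apply F.inj j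
  have hcn : (0 : ℝ) ≤ c + 2 * n + 1 := by positivity
  have hmov : F.Y.Mov (x - F.Y.cls (dvr F.F e)) := by
    rw [hD, hx1, add_sub_cancel_right]
    exact F.mov _ fun C => deg_smul C hcn (hn C)
  have hpsef : F.Y.Psef x := by
    intro t ht
    have h1 := hP.psef_of_mov (F.mov _ fun C => deg_smul C hcn (hn C)) t ht
    have h3 : F.Y.Eff (sm F.Y F.F Finset.univ e) := by
      rw [← hD]
      exact Num.eff_iff.2 ⟨_, dvr_nonneg he0, rfl⟩
    have h4 := Num.Eff.add h1 h3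
    rw [hx1]
    convert h4 using 1
    abel
  obtain ⟨N, hN0, hN1, hN2, hN3⟩ := hP.dec_min hpsef
  have hNle := hN2 _ (dvr_nonneg he0) hmov
  refine hN3 (F.F j) (lt_of_le_of_ne (hN0 _) fun hNj => ?_)
  -- the numbers `u_j`
  let u : Fin F.a → ℝ := fun j => e j - N (F.F j)
  have hu : ∀ j, 0 ≤ u j := fun j => by
    have h1 := hNle (F.F j)
    rw [dvr_apply F.inj] at h1
    exact sub_nonneg.2 h1
  have hNF : F.Y.cls N = sm F.Y F.F Finset.univ fun j => N (F.F j) := by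
    refine cls_eq_sm F.inj N fun P hP => ?_
    have h1 := hNle P
    rw [dvr_zero P hP] at h1
    exact le_antisymm h1 (hN0 P)
  have hxN : x - F.Y.cls N =
      ((c : ℝ) + 2 * n + 1) • F.part T + (sm F.Y F.F T u + sm F.Y F.F Tᶜ u) := by
    rw [sm_compl, hx1, hNF]
    have h1 : sm F.Y F.F Finset.univ e = sm F.Y F.F Finset.univ u +
        sm F.Y F.F Finset.univ fun j => N (F.F j) := by
      rw [← sm_add]
      exact sm_congr fun j _ => (sub_add_cancel _ _).symm
    rw [h1]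
    abel
  set E := sm F.Y F.F T u with hE
  have hG := part_cl hn h2
  have h3 : ∀ j ∈ T, 0 ≤ F.Y.f E (F.Y.cl (F.F j)) := by
    intro j hj
    have h4 := hP.mov_cl hN1 (F.F j)
    have h5 : F.Y.f (sm F.Y F.F Tᶜ u) (F.Y.cl (F.F j)) = 0 := by
      rw [sm_f hP]
      refine Finset.sum_eq_zero fun i hi => ?_
      rw [hP.symm, hT j hj i (Finset.mem_compl.1 hi), mul_zero]
    rw [hxN, hP.add, hP.add, hP.mul, hG j hj, mul_zero, zero_add, h5, add_zero] at h4
    exact h4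
  have h4 : 0 ≤ F.Y.f E E := by
    have h5 := f_sm hP (F := F.F) (T := T) (u := u) E
    rw [← hE] at h5
    rw [h5]
    exact Finset.sum_nonneg fun j hj => mul_nonneg (hu j) (h3 j hj)
  have h5 : F.Y.f (F.part T) E = 0 := by
    rw [hE, f_sm hP]
    exact Finset.sum_eq_zero fun j hj => by rw [hG j hj, mul_zero]
  have h6 := hform.prop (F.mov _ hn) h2 (part_ne ⟨j, hj⟩) h5 h4
  -- connectedness
  have hu0 : u j0 = 0 := by
    have h7 : e j0 = 0 := by
      rw [he j0 hj0]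
      have h1 : (c : ℝ) * F.m j0 = F.k j0 + 1 := by exact_mod_cast hj0'
      linarith
    have h8 := hu j0
    have h9 := hN0 (F.F j0)
    rw [Finsupp.coe_zero, Pi.zero_apply] at h9
    change 0 ≤ e j0 - N (F.F j0) at h8
    change e j0 - N (F.F j0) = 0
    linarith
  have huj : u j ≠ 0 := by
    change e j - N (F.F j) ≠ 0
    rw [← hNj, sub_zero, he j hj]
    have h1 : (c : ℝ) * F.m j < F.k j + 1 := by exact_mod_cast hlt
    linarith
  obtain ⟨j2, hj2, j3, hj3, hj3', h7⟩ := hc (T.filter fun j => u j ≠ 0) (Finset.filter_subset _ _)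
    ⟨j, Finset.mem_filter.2 ⟨hj, huj⟩⟩ ⟨j0, hj0, fun h => (Finset.mem_filter.1 h).2 hu0⟩
  obtain ⟨hj2T, hj2u⟩ := Finset.mem_filter.1 hj2
  have hu3 : u j3 = 0 := by
    by_contra h
    exact hj3' (Finset.mem_filter.2 ⟨hj3, h⟩)
  have h8 : F.Y.f E (F.Y.cl (F.F j3)) = 0 := by
    rw [h6, hP.mul, hG j3 hj3, mul_zero]
  rw [hE, sm_f hP] at h8
  have h9 : ∀ i ∈ T, 0 ≤ u i * F.Y.f (F.Y.cl (F.F i)) (F.Y.cl (F.F j3)) := by
    intro i _
    by_cases h : i = j3
    · rw [h, hu3, zero_mul]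
    · exact mul_nonneg (hu i) (hP.cl_cl _ _ fun h' => h (F.inj h'))
  have h10 := (Finset.sum_eq_zero_iff_of_nonneg h9).1 h8 j2 hj2T
  rcases mul_eq_zero.1 h10 with h | h
  · exact hj2u h
  · exact h7 h

end Fibre

end Pool.Agent.H21.TN.OP
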