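import Pool.Agent.H21.TN.CO.Grow
import Pool.Agent.H21.TN.OP.Prog

/-! A nef line bundle `L` with `nu(L) ≤ kappa(L) + 1` on a manifold with trivial canonical bundle is
semiample. -/

namespace Pool.Agent.H21.TN.OP

open Pool.Agent.H21.TN.ND

open scoped BigOperators

namespace Fibre

variable {n q : ℕ} {i1 i2 : ℝ} {F : Fibre n q i1 i2}

theorem Iso.compl {T : Finset (Fin F.a)} (h : F.Iso T) : F.Iso Tᶜ := by
  classical
  intro j hj j' hj'
  rw [F.form.symm]
  exact h j' (not_not.1 fun h1 => hj' (Finset.mem_compl.2 h1)) j (Finset.mem_compl.1 hj)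

theorem deg_sm (C : F.Cv) (T : Finset (Fin F.a)) (u : Fin F.a → ℝ) :
    F.deg C (sm F.Y F.F T u) = ∑ j ∈ T, u j * F.deg C (F.Y.cl (F.F j)) := by
  classical
  rw [sm]
  induction T using Finset.induction_on with
  | empty =>
    rw [Finset.sum_empty, Finset.sum_empty]
    have h := (F.lin C).2 0 0
    rwa [zero_smul, zero_mul] at h
  | insert j T hj ih =>
    rw [Finset.sum_insert hj, Finset.sum_insert hj, (F.lin C).1, (F.lin C).2, ih]

/-- a part disjoint from the others is nef -/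
theorem nef_part {T : Finset (Fin F.a)} (h : F.Iso T) : ∀ C, 0 ≤ F.deg C (F.part T) := by
  classical
  intro C
  rw [part, deg_sm]
  by_cases h1 : ∃ j ∈ T, F.In C j
  · obtain ⟨j, hj, hC⟩ := h1
    have h2 := F.nef C
    rw [deg_sm] at h2
    rw [Finset.sum_subset (Finset.subset_univ T)]
    · exact h2
    · intro j' _ hj'
      rw [F.disj C j j' (fun e => hj' (e ▸ hj)) (h j hj j' hj') hC, mul_zero]
  · refine Finset.sum_nonneg fun j hj => mul_nonneg (Nat.cast_nonneg _) (F.not_in C j fun hC => ?_)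
    exact h1 ⟨j, hj, hC⟩

theorem part_add (T : Finset (Fin F.a)) : F.part T + F.part Tᶜ = F.part Finset.univ := sm_compl

theorem cross {T : Finset (Fin F.a)} (h : F.Iso T) : F.Y.f (F.part T) (F.part Tᶜ) = 0 := by
  classical
  rw [part, part, sm_f F.form.toPre]
  refine Finset.sum_eq_zero fun j hj => ?_
  rw [f_sm F.form.toPre, Finset.sum_eq_zero, mul_zero]
  intro j' hj'
  rw [h j hj j' (Finset.mem_compl.1 hj'), mul_zero]

theorem sq_nonneg' {x : Vec F.r} (h : ∀ C, 0 ≤ F.deg C x) : 0 ≤ F.Y.f x x :=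
  F.form.mov_psef (F.mov x h) (F.form.psef_of_mov (F.mov x h))

/-- the square of a part disjoint from the others is numerically trivial -/
theorem sq_part (h2 : i2 = 0) {T : Finset (Fin F.a)} (h : F.Iso T) :
    F.Y.f (F.part T) (F.part T) = 0 := by
  classical
  have h3 : F.Y.f (F.part Finset.univ) (F.part Finset.univ) = 0 := by
    have h4 : F.d * F.Y.f (F.part Finset.univ) (F.part Finset.univ) = 0 := by
      rw [part, ← F.two]
      exact mul_eq_zero_of_right _ h2
    rcases mul_eq_zero.1 h4 with h5 | h5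
    · exact absurd h5 F.d_pos.ne'
    · exact h5
  rw [← part_add T, F.form.add, F.form.add', F.form.add', cross h, F.form.symm (F.part Tᶜ), cross h]
    at h3
  have h4 := sq_nonneg' (nef_part h)
  have h5 := sq_nonneg' (nef_part h.compl)
  linarith

theorem nonempty (hq : 0 < q) (h1 : i1 ≠ 0) : 0 < F.a := by
  rcases Nat.eq_zero_or_pos F.a with h | h
  · exfalso
    have h2 := F.one
    have h3 : sm F.Y F.F Finset.univ (fun j => (F.m j : ℝ)) = 0 :=
      Finset.sum_eq_zero fun j _ => absurd j.2 (by omega)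
    rw [h3, F.form.zero', mul_zero] at h2
    rcases mul_eq_zero.1 h2 with h4 | h4
    · have : q = 0 := by exact_mod_cast h4
      omega
    · exact h1 h4
  · exact h

/-- **Theorem.** The numerical dimension of `L` on the general fibre of the Iitaka fibration is not
one. -/
theorem contra (F : Fibre n q i1 i2) (hq : 0 < q) (h1 : i1 ≠ 0) (h2 : i2 = 0) : False := by
  classical
  -- a connected component of the support of `N_F`
  have hne : (Finset.univ.filter fun T : Finset (Fin F.a) => T.Nonempty ∧ F.Iso T).Nonempty := by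
    refine ⟨Finset.univ, ?_⟩
    rw [Finset.mem_filter]
    exact ⟨Finset.mem_univ _, ⟨⟨0, nonempty hq h1⟩, Finset.mem_univ _⟩,
      fun j _ j' hj' => absurd (Finset.mem_univ j') hj'⟩
  obtain ⟨T, hT, hmin⟩ := Finset.exists_min_image _ Finset.card hne
  obtain ⟨-, hTne, hTiso⟩ := Finset.mem_filter.1 hT
  have hconn : F.Conn T := by
    intro U hU hne ⟨j2, hj2, hj2'⟩
    by_contra hcon
    push Not at hcon
    have hV : U ∈ Finset.univ.filter fun T : Finset (Fin F.a) => T.Nonempty ∧ F.Iso T := by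
      refine Finset.mem_filter.2 ⟨Finset.mem_univ _, hne, fun x hx y hy => ?_⟩
      by_cases hyT : y ∈ T
      · exact hcon x hx y hyT hy
      · exact hTiso x (hU hx) y hyT
    exact absurd (Finset.card_lt_card ⟨hU, fun h => hj2' (h hj2)⟩) (not_lt.2 (hmin _ hV))
  -- the number `c`
  obtain ⟨j0, hj0, hmin0⟩ := Finset.exists_min_image T
    (fun j => ((F.k j : ℚ) + 1) / F.m j) hTne
  let c : ℚ := ((F.k j0 : ℚ) + 1) / F.m j0
  have hmq : ∀ j, (0 : ℚ) < F.m j := fun j => by exact_mod_cast F.m_pos j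
  have hle : ∀ j ∈ T, c * F.m j ≤ F.k j + 1 := fun j hj => (le_div_iff₀ (hmq j)).1 (hmin0 j hj)
  have heq : ∃ j ∈ T, c * F.m j = F.k j + 1 := ⟨j0, hj0, div_mul_cancel₀ _ (hmq j0).ne'⟩
  have P := F.prog T c hTiso (nef_part hTiso) (sq_part h2 hTiso) hle heq
    (F.negative T c hTiso hconn (nef_part hTiso) (sq_part h2 hTiso) hle heq)
  obtain ⟨i, hi, h3⟩ := P.unbounded 1
  exact absurd (h3.trans_le ((F.mono T i).trans (F.iitaka i hi))) (lt_irrefl _)

end Fibre

section

variable {r : ℕ} {X : Var r} {L : X.P}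

/-- `kappa ≥ k` and `h^0(i L) ≤ C i^b` imply `k ≤ b` -/
theorem Kod.le {k b : ℕ} (hk : Kod X L k)
    (hb : ∃ C : ℝ, ∀ i : ℕ, 0 < i → (X.h 0 (i • L) : ℝ) ≤ C * i ^ b) : k ≤ b := by
  obtain ⟨m, hm, t, ht, h1⟩ := hk
  obtain ⟨C, h2⟩ := hb
  by_contra hc
  have hc' : b < k := not_le.1 hc
  have h3 : ∀ i : ℕ, 0 < i → t * (i : ℝ) ≤ C * (m : ℝ) ^ b := by
    intro i hi
    have hi' : (0 : ℝ) < i := by exact_mod_cast hi
    have h4 := h1 i hi
    have h5 := h2 (i * m) (Nat.mul_pos hi hm)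
    rw [mul_smul] at h5
    have h6 : t * (i : ℝ) ^ k ≤ C * ((i : ℝ) * m) ^ b := by
      have h7 := h4.trans h5
      push_cast at h7
      exact h7
    have h8 : (i : ℝ) ^ (b + 1) ≤ (i : ℝ) ^ k :=
      pow_le_pow_right₀ (by exact_mod_cast hi) hc'
    have h9 : t * (i : ℝ) ^ (b + 1) ≤ C * ((i : ℝ) * m) ^ b :=
      (mul_le_mul_of_nonneg_left h8 ht.le).trans h6
    rw [mul_pow, pow_succ] at h9
    have h10 : (i : ℝ) ^ b * (t * i) ≤ (i : ℝ) ^ b * (C * (m : ℝ) ^ b) := by
      nlinarith [h9]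
    exact le_of_mul_le_mul_left h10 (pow_pos hi' b)
  obtain ⟨i, hi⟩ := exists_nat_gt (C * (m : ℝ) ^ b / t)
  have h4 := h3 (i + 1) (Nat.succ_pos i)
  rw [div_lt_iff₀ ht] at hi
  push_cast at h4
  nlinarith

theorem Kod.section {k : ℕ} (hk : Kod X L k) : ∃ m : ℕ, 0 < m ∧ X.h 0 (m • L) ≠ 0 := by
  obtain ⟨m, hm, t, ht, h1⟩ := hk
  refine ⟨m, hm, fun h => ?_⟩
  have h2 := h1 1 one_pos
  rw [one_smul, h] at h2
  simp only [Nat.cast_one, one_pow, mul_one, Nat.cast_zero] at h2
  linarith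

variable {top : ℕ → ℝ}

/-- `L^2 . M^b . A^(n-b-2) ≤ m^b L^(b+2) . A^(n-b-2)` -/
theorem Iit.vanish (F : Iit X L top) {d : ℕ} (h : top d = 0) :
    ∀ j i, i + j = d → i + j ≤ X.n → F.I i j = 0 := by
  intro j
  induction j with
  | zero =>
    intro i hi _
    rw [add_zero] at hi
    subst hi
    exact F.I_top _ h
  | succ j ih =>
    intro i hi hn
    have h1 := ih (i + 1) (by omega) (by omega)
    have h2 := F.I_le i j (by omega)
    rw [h1, mul_zero] at h2
    exact le_antisymm h2 (F.I_nonneg _ _)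

/-- the two numbers `nu ≤ kappa + 1` -/
theorem Iit.semiample (F : Iit X L top) (hbig : ∀ i, X.n < i → top i = 0)
    (h : top (F.b + 2) = 0) : X.Semiample L := by
  by_cases h1 : top (F.b + 1) = 0
  · exact F.kawamata h1
  have h2 : F.b + 1 ≤ X.n := by
    by_contra hc
    exact h1 (hbig _ (not_le.1 hc))
  rcases Nat.lt_or_ge (F.b + 1) X.n with h3 | h3
  · have h4 : F.I 2 F.b = 0 := F.vanish h F.b 2 (by omega) (by omega)
    have h5 : F.I 1 F.b ≠ 0 := fun h => h1 (F.easy h2 h)
    exact ((F.fibre (by omega)).contra F.m_pos h5 h4).elim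
  · refine F.bpf ?_
    rwa [show X.n = F.b + 1 by omega]

end

/-- **Theorem.** `X` is a projective manifold of any dimension with `K_X ~ 0`, and `x` is a nef line
bundle on `X` with `kappa(x) ≥ k ≥ nu(x) - 1`. Then `x` is semiample. -/
theorem Fib.semiample {r : ℕ} {X : Var r} (D : Fib X) (x : X.P) (hx : X.Nef x) (k : ℕ)
    (hk : Kod X x k) (h : D.top x (k + 2) = 0) : X.Semiample x := by
  have F := D.iit x hx hk.section
  refine F.semiample (D.top_big x) ?_
  have h1 : k ≤ F.b := hk.le F.upper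
  have h2 : ∀ q, D.top x (k + 2 + q) = 0 := by
    intro q
    induction q with
    | zero => exact h
    | succ q ih => exact D.top_succ x _ hx ih
  have h3 := h2 (F.b - k)
  rwa [show k + 2 + (F.b - k) = F.b + 2 by omega] at h3

end Pool.Agent.H21.TN.OP
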